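import Pool.Agent.Helper36.HS.GoalsL

/-! An elementary Sobolev inequality (packet HS SOB). -/

open Complex Metric Set Filter Topology MeasureTheory
open scoped ContDiff ComplexConjugate ComplexOrder Manifold ENNReal

namespace Pool.Agent.Helper41.HS

open Pool.Agent.Helper95.Lin Pool.Agent.Helper16.Abund Pool.Agent.Helper92.Orb
  Pool.Agent.Helper10.SP Pool.Agent.Helper36.HS

variable {n : ℕ}

/-- The derivative in the direction `e`. -/
noncomputable def dd (e : Cn n) (w : Cn n → ℂ) : Cn n → ℂ := fun x => fderiv ℝ w x e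

lemma dd_smooth (e : Cn n) {w : Cn n → ℂ} (hw : ContDiff ℝ ∞ w) : ContDiff ℝ ∞ (dd e w) :=
  (hw.fderiv_right (m := ∞) (by simp)).clm_apply contDiff_const

lemma dd_supp (e : Cn n) {w : Cn n → ℂ} (hw : HasCompactSupport w) :
    HasCompactSupport (dd e w) := by
  have h : HasCompactSupport (fderiv ℝ w) := hw.fderiv ℝ
  refine h.comp_left (g := fun L : Cn n →L[ℝ] ℂ => L e) (by simp)

lemma line_le (e : Cn n) (he : e ≠ 0) {w : Cn n → ℂ} (hw : ContDiff ℝ ∞ w)
    (hc : HasCompactSupport w) (x : Cn n) :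
    ‖w x‖ₑ ≤ ∫⁻ t : ℝ, ‖dd e w (x + t • e)‖ₑ := by
  have h1 : ContDiff ℝ 1 (fun t : ℝ => w (x + t • e)) :=
    (hw.of_le (by exact_mod_cast le_top)).comp
      (contDiff_const.add (contDiff_id.smul contDiff_const))
  have h2 : HasCompactSupport (fun t : ℝ => w (x + t • e)) := by
    have hemb : IsClosedEmbedding (fun t : ℝ => x + t • e) :=
      (Homeomorph.addLeft x).isClosedEmbedding.comp (isClosedEmbedding_smul_left he)
    exact hc.comp_isClosedEmbedding hemb
  have h3 := HasCompactSupport.enorm_le_lintegral_Ici_deriv h1 h2 0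
  simp only [zero_smul, add_zero] at h3
  refine h3.trans ((setLIntegral_le_lintegral _ _).trans (le_of_eq ?_))
  refine lintegral_congr fun t => ?_
  congr 1
  have hd : HasFDerivAt w (fderiv ℝ w (x + t • e)) (x + t • e) :=
    (hw.differentiable (by simp) _).hasFDerivAt
  have hl : HasDerivAt (fun t : ℝ => x + t • e) e t := by
    simpa using ((hasDerivAt_id t).smul_const e).const_add x
  exact (hd.comp_hasDerivAt t hl).deriv

/-- `∂_x ∂_y` in the variable `j`. -/
noncomputable def dxy (j : Fin n) (w : Cn n → ℂ) : Cn n → ℂ :=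
  dd (Pi.single j I) (dd (Pi.single j 1) w)

lemma var_le (j : Fin n) {w : Cn n → ℂ} (hw : ContDiff ℝ ∞ w)
    (hc : HasCompactSupport w) (x : Cn n) :
    ‖w x‖ₑ ≤ ∫⁻ z : ℂ, ‖dxy j w (Function.update x j z)‖ₑ := by
  have he1 : (Pi.single j 1 : Cn n) ≠ 0 := by simp
  have he2 : (Pi.single j I : Cn n) ≠ 0 := by simp
  have h1 := line_le _ he1 hw hc x
  have h2 : ∀ y, ‖dd (Pi.single j 1) w y‖ₑ ≤
      ∫⁻ t : ℝ, ‖dxy j w (y + t • (Pi.single j I : Cn n))‖ₑ :=
    fun y => line_le _ he2 (dd_smooth _ hw) (dd_supp _ hc) y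
  refine h1.trans ((lintegral_mono fun t => h2 _).trans (le_of_eq ?_))
  have hcont : Continuous (dxy j w) := (dd_smooth _ (dd_smooth _ hw)).continuous
  set F : ℂ → ℝ≥0∞ := fun z => ‖dxy j w (Function.update x j z)‖ₑ with hF
  have hFm : Measurable F := by
    refine (hcont.comp ?_).measurable.enorm
    exact continuous_const.update j continuous_id
  have e1 : ∀ s t : ℝ, ‖dxy j w (x + s • (Pi.single j 1 : Cn n) + t • (Pi.single j I : Cn n))‖ₑ =
      F (x j + ⟨s, t⟩) := by
    intro s t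
    rw [hF]
    simp only
    congr 2
    funext i
    by_cases hi : i = j
    · subst hi
      simp only [Pi.add_apply, Pi.smul_apply, Pi.single_eq_same, Function.update_self,
        Complex.real_smul]
      rw [add_assoc]
      congr 1
      apply Complex.ext <;> simp
    · simp [Pi.add_apply, Pi.smul_apply, Pi.single_eq_of_ne hi, Function.update_of_ne hi]
  simp_rw [e1]
  have e2 : ∫⁻ z : ℂ, F z = ∫⁻ z : ℂ, F (x j + z) := (lintegral_add_left_eq_self F (x j)).symm
  rw [e2]
  have e3 : ∫⁻ z : ℂ, F (x j + z) =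
      ∫⁻ p : ℝ × ℝ, F (x j + Complex.measurableEquivRealProd.symm p) := by
    have := (Complex.volume_preserving_equiv_real_prod.symm).lintegral_comp_emb
      Complex.measurableEquivRealProd.symm.measurableEmbedding (fun z => F (x j + z))
    exact this.symm
  rw [e3]
  simp only [Complex.measurableEquivRealProd_symm_apply]
  rw [MeasureTheory.Measure.volume_eq_prod]
  rw [lintegral_prod]
  refine Measurable.aemeasurable ?_
  refine hFm.comp (measurable_const.add ?_)
  exact Complex.measurableEquivRealProd.symm.measurable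

/-- Iterated `dxy`. -/
noncomputable def DL : List (Fin n) → (Cn n → ℂ) → Cn n → ℂ
  | [], w => w
  | j :: l, w => DL l (dxy j w)

lemma DL_smooth : ∀ (l : List (Fin n)) {w : Cn n → ℂ}, ContDiff ℝ ∞ w → ContDiff ℝ ∞ (DL l w)
  | [], _, hw => hw
  | _ :: l, _, hw => DL_smooth l (dd_smooth _ (dd_smooth _ hw))

lemma DL_le : ∀ (l : List (Fin n)), l.Nodup → ∀ {w : Cn n → ℂ}, ContDiff ℝ ∞ w →
    HasCompactSupport w → ∀ x,
    ‖w x‖ₑ ≤ (∫⋯∫⁻_l.toFinset, (fun y => ‖DL l w y‖ₑ) ∂(fun _ => (volume : Measure ℂ))) x := by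
  intro l
  induction l with
  | nil =>
    intro _ w hw hc x
    simp [DL]
  | cons j l ih =>
    intro hn w hw hc x
    have hj : j ∉ l := (List.nodup_cons.mp hn).1
    have hw' : ContDiff ℝ ∞ (dxy j w) := dd_smooth _ (dd_smooth _ hw)
    have hc' : HasCompactSupport (dxy j w) := dd_supp _ (dd_supp _ hc)
    have h1 := var_le j hw hc x
    have h2 : ∀ y, ‖dxy j w y‖ₑ ≤ _ := fun y => ih (List.nodup_cons.mp hn).2 hw' hc' y
    rw [List.toFinset_cons]
    have hm : Measurable (fun y => ‖DL (j :: l) w y‖ₑ) :=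
      ((DL_smooth (j :: l) hw).continuous).measurable.enorm
    rw [lmarginal_insert _ hm (by simpa using hj)]
    exact h1.trans (lintegral_mono fun z => h2 _)

lemma DL_supp (K : Set (Cn n)) (hK : IsClosed K) : ∀ (l : List (Fin n)) {w : Cn n → ℂ},
    (∀ x ∉ K, w x = 0) → ∀ x ∉ K, DL l w x = 0 := by
  have key : ∀ (e : Cn n) (w : Cn n → ℂ), (∀ x ∉ K, w x = 0) → ∀ x ∉ K, dd e w x = 0 := by
    intro e w hw x hx
    have : w =ᶠ[𝓝 x] fun _ => 0 := by
      filter_upwards [hK.isOpen_compl.mem_nhds hx] with y hy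
      exact hw y hy
    simp [dd, this.fderiv_eq]
  intro l
  induction l with
  | nil => intro w hw; exact hw
  | cons j l ih =>
    intro w hw
    exact ih (key _ _ (key _ _ hw))

/-! ### Reduction to words -/

lemma cd_smooth (l : Fin n) {w : Cn n → ℂ} (hw : ContDiff ℝ ∞ w) : ContDiff ℝ ∞ (cd l w) :=
  (dd_smooth (Pi.single l 1) hw).sub (contDiff_const.mul (dd_smooth (Pi.single l I) hw))

lemma cdb_smooth (l : Fin n) {w : Cn n → ℂ} (hw : ContDiff ℝ ∞ w) : ContDiff ℝ ∞ (cdb l w) :=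
  (dd_smooth (Pi.single l 1) hw).add (contDiff_const.mul (dd_smooth (Pi.single l I) hw))

lemma dz_smooth (a : Fin n × Bool) {w : Cn n → ℂ} (hw : ContDiff ℝ ∞ w) :
    ContDiff ℝ ∞ (dz a w) := by
  unfold dz
  split_ifs
  · exact cdb_smooth _ hw
  · exact cd_smooth _ hw

lemma dd_lin (e : Cn n) {f g : Cn n → ℂ} (hf : ContDiff ℝ ∞ f) (hg : ContDiff ℝ ∞ g) (c d : ℂ) :
    dd e (fun x => c * f x + d * g x) = fun x => c * dd e f x + d * dd e g x := by
  funext x
  have h1 := (hf.differentiable (by simp) x).hasFDerivAt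
  have h2 := (hg.differentiable (by simp) x).hasFDerivAt
  have h3 := (h1.const_mul c).add (h2.const_mul d)
  unfold dd
  rw [show (fun x => c * f x + d * g x) = ((fun x => c * f x) + fun x => d * g x) from rfl,
    h3.fderiv]
  simp

lemma dz_lin (a : Fin n × Bool) {f g : Cn n → ℂ} (hf : ContDiff ℝ ∞ f) (hg : ContDiff ℝ ∞ g)
    (c d : ℂ) : dz a (fun x => c * f x + d * g x) = fun x => c * dz a f x + d * dz a g x := by
  have h1 := dd_lin (Pi.single a.1 1) hf hg c d
  have h2 := dd_lin (Pi.single a.1 I) hf hg c d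
  funext x
  have h1' := congrFun h1 x
  have h2' := congrFun h2 x
  simp only [dd] at h1' h2'
  unfold dz
  split_ifs
  · simp only [cdb, h1', h2']
    ring
  · simp only [cd, h1', h2']
    ring

lemma Dw_lin : ∀ (α : List (Fin n × Bool)) {f g : Cn n → ℂ}, ContDiff ℝ ∞ f → ContDiff ℝ ∞ g →
    ∀ (c d : ℂ), Dw α (fun x => c * f x + d * g x) = fun x => c * Dw α f x + d * Dw α g x := by
  intro α
  induction α with
  | nil => intro f g _ _ c d; rfl
  | cons a α ih =>
    intro f g hf hg c d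
    simp only [Dw]
    rw [dz_lin a hf hg]
    exact ih (dz_smooth a hf) (dz_smooth a hg) c d

lemma Dw_smooth : ∀ (α : List (Fin n × Bool)) {f : Cn n → ℂ}, ContDiff ℝ ∞ f →
    ContDiff ℝ ∞ (Dw α f)
  | [], _, hf => hf
  | a :: α, _, hf => Dw_smooth α (dz_smooth a hf)

lemma Dw_supp (K : Set (Cn n)) (hK : IsClosed K) : ∀ (l : List (Fin n × Bool)) {w : Cn n → ℂ},
    (∀ x ∉ K, w x = 0) → ∀ x ∉ K, Dw l w x = 0 := by
  have key : ∀ (a : Fin n × Bool) (w : Cn n → ℂ), (∀ x ∉ K, w x = 0) →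
      ∀ x ∉ K, dz a w x = 0 := by
    intro a w hw x hx
    have : w =ᶠ[𝓝 x] fun _ => 0 := by
      filter_upwards [hK.isOpen_compl.mem_nhds hx] with y hy
      exact hw y hy
    unfold dz
    split_ifs
    · simp [cdb, this.fderiv_eq]
    · simp [cd, this.fderiv_eq]
  intro l
  induction l with
  | nil => intro w hw; exact hw
  | cons j l ih =>
    intro w hw
    exact ih (key _ _ hw)

lemma dd_x (j : Fin n) (w : Cn n → ℂ) :
    dd (Pi.single j 1) w = fun x => (1 / 2 : ℂ) * cd j w x + (1 / 2 : ℂ) * cdb j w x := by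
  funext x
  simp only [dd, cd, cdb]
  ring

lemma dd_y (j : Fin n) (w : Cn n → ℂ) :
    dd (Pi.single j I) w = fun x => (I / 2) * cd j w x + (-I / 2) * cdb j w x := by
  funext x
  simp only [dd, cd, cdb]
  linear_combination (fderiv ℝ w x (Pi.single j I)) * I_sq

lemma dxy_eq (hWIRT : S_WIRT) (j : Fin n) {w : Cn n → ℂ} (hw : ContDiff ℝ ∞ w) :
    dxy j w = fun x => (I / 4) * Dw [(j, false), (j, false)] w x +
      (-I / 4) * Dw [(j, true), (j, true)] w x := by
  have hcd := cd_smooth j hw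
  have hcdb := cdb_smooth j hw
  unfold dxy
  rw [dd_x, dd_lin _ hcd hcdb, dd_y, dd_y]
  funext x
  have hcomm : cd j (cdb j w) x = cdb j (cd j w) x :=
    ((hWIRT univ isOpen_univ w w hw.contDiffOn hw.contDiffOn).2.2.2.2.1 j j x (mem_univ x)).2.2
  simp only [Dw, dz, if_true, Bool.false_eq_true, if_false]
  rw [hcomm]
  ring

lemma sq_le (a b : ℂ) : ‖(I / 4) * a + (-I / 4) * b‖ ^ 2 ≤ (1 / 8) * ‖a‖ ^ 2 + (1 / 8) * ‖b‖ ^ 2 := by
  have h : ‖(I / 4) * a + (-I / 4) * b‖ ≤ (1 / 4) * ‖a‖ + (1 / 4) * ‖b‖ := by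
    refine (norm_add_le _ _).trans (le_of_eq ?_)
    simp
  have h0 : 0 ≤ ‖(I / 4) * a + (-I / 4) * b‖ := norm_nonneg _
  nlinarith [sq_nonneg (‖a‖ - ‖b‖)]

lemma int_sq {K : Set (Cn n)} (hK : IsCompact K) {f : Cn n → ℂ} (hf : Continuous f)
    (h0 : ∀ x ∉ K, f x = 0) : Integrable fun x => ‖f x‖ ^ 2 := by
  refine (hf.norm.pow 2).integrable_of_hasCompactSupport ?_
  refine HasCompactSupport.intro hK fun x hx => ?_
  simp [h0 x hx]

lemma DL_L2 (hWIRT : S_WIRT) {K : Set (Cn n)} (hK : IsCompact K) : ∀ (l : List (Fin n))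
    {w : Cn n → ℂ} {δ : ℝ}, ContDiff ℝ ∞ w → (∀ x ∉ K, w x = 0) →
    (∀ α : List (Fin n × Bool), α.length = 2 * l.length → ∫ x, ‖Dw α w x‖ ^ 2 ≤ δ) →
    ∫ x, ‖DL l w x‖ ^ 2 ≤ δ := by
  intro l
  induction l with
  | nil =>
    intro w δ hw h0 h
    exact h [] rfl
  | cons j l ih =>
    intro w δ hw h0 h
    have hw' : ContDiff ℝ ∞ (dxy j w) := dd_smooth _ (dd_smooth _ hw)
    have h0' : ∀ x ∉ K, dxy j w x = 0 := DL_supp K hK.isClosed [j] h0
    refine ih hw' h0' fun α hα => ?_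
    have hs1 := Dw_smooth [(j, false), (j, false)] hw
    have hs2 := Dw_smooth [(j, true), (j, true)] hw
    rw [dxy_eq hWIRT j hw, Dw_lin α hs1 hs2]
    have e1 : Dw α (Dw [(j, false), (j, false)] w) = Dw ((j, false) :: (j, false) :: α) w := rfl
    have e2 : Dw α (Dw [(j, true), (j, true)] w) = Dw ((j, true) :: (j, true) :: α) w := rfl
    rw [e1, e2]
    have i1 := h ((j, false) :: (j, false) :: α) (by simp [hα]; ring)
    have i2 := h ((j, true) :: (j, true) :: α) (by simp [hα]; ring)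
    have g1 := int_sq hK (Dw_smooth ((j, false) :: (j, false) :: α) hw).continuous
      (Dw_supp K hK.isClosed _ h0)
    have g2 := int_sq hK (Dw_smooth ((j, true) :: (j, true) :: α) hw).continuous
      (Dw_supp K hK.isClosed _ h0)
    have hδ : 0 ≤ δ := le_trans (integral_nonneg fun x => by positivity) i1
    calc _ ≤ ∫ x, ((1 / 8) * ‖Dw ((j, false) :: (j, false) :: α) w x‖ ^ 2 +
          (1 / 8) * ‖Dw ((j, true) :: (j, true) :: α) w x‖ ^ 2) := by
          refine integral_mono_of_nonneg (Eventually.of_forall fun x => by positivity)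
            ((g1.const_mul _).add (g2.const_mul _)) (Eventually.of_forall fun x => ?_)
          exact sq_le _ _
      _ = (1 / 8) * (∫ x, ‖Dw ((j, false) :: (j, false) :: α) w x‖ ^ 2) +
          (1 / 8) * ∫ x, ‖Dw ((j, true) :: (j, true) :: α) w x‖ ^ 2 := by
          rw [integral_add (g1.const_mul _) (g2.const_mul _), integral_const_mul,
            integral_const_mul]
      _ ≤ δ := by linarith

theorem sob (hWIRT : S_WIRT) : S_SOB := by
  intro n K hK
  have hVfin : volume K ≠ ⊤ := hK.measure_lt_top.ne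
  set V : ℝ := (volume K).toReal with hV
  have hV0 : 0 ≤ V := ENNReal.toReal_nonneg
  refine ⟨V + 1, by positivity, ?_⟩
  intro w δ hw h0 hα x
  set l := List.finRange n with hl
  have hlen : l.length = n := List.length_finRange
  have hL2 : ∫ x, ‖DL l w x‖ ^ 2 ≤ δ :=
    DL_L2 hWIRT hK l hw h0 (fun α h => hα α (by rw [h, hlen]))
  have hsm : ContDiff ℝ ∞ (DL l w) := DL_smooth l hw
  have hsup : ∀ x ∉ K, DL l w x = 0 := DL_supp K hK.isClosed l h0
  have hcs : HasCompactSupport w := HasCompactSupport.intro hK h0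
  have hpt := DL_le l (List.nodup_finRange n) hw hcs x
  have huniv : l.toFinset = Finset.univ := by
    ext i; simp [hl]
  rw [huniv, lmarginal_univ] at hpt
  have hpt' : ‖w x‖ₑ ≤ ∫⁻ y, ‖DL l w y‖ₑ := hpt
  have hint : Integrable (DL l w) :=
    hsm.continuous.integrable_of_hasCompactSupport (HasCompactSupport.intro hK hsup)
  have hnorm : ‖w x‖ ≤ ∫ y, ‖DL l w y‖ := by
    have h1 : ENNReal.ofReal ‖w x‖ ≤ ENNReal.ofReal (∫ y, ‖DL l w y‖) := by
      rw [ofReal_integral_norm_eq_lintegral_enorm hint, ofReal_norm]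
      exact hpt'
    exact (ENNReal.ofReal_le_ofReal_iff (integral_nonneg fun y => norm_nonneg _)).mp h1
  set J := ∫ y, ‖DL l w y‖ with hJ
  have hJK : J = ∫ y in K, ‖DL l w y‖ := by
    rw [hJ]
    refine (setIntegral_eq_integral_of_forall_compl_eq_zero fun y hy => ?_).symm
    simp [hsup y hy]
  have hQK : ∫ y in K, ‖DL l w y‖ ^ 2 ≤ δ := by
    rw [setIntegral_eq_integral_of_forall_compl_eq_zero]
    · exact hL2
    · intro y hy
      simp [hsup y hy]
  have hsq : IntegrableOn (fun y => ‖DL l w y‖ ^ 2) K := (int_sq hK hsm.continuous hsup).integrableOn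
  have hn1 : IntegrableOn (fun y => ‖DL l w y‖) K := hint.norm.integrableOn
  have hexp : ∀ c : ℝ, 0 ≤ δ - 2 * c * J + c ^ 2 * V := by
    intro c
    have h1 : 0 ≤ ∫ y in K, (‖DL l w y‖ - c) ^ 2 := integral_nonneg fun y => by positivity
    have h2 : ∫ y in K, (‖DL l w y‖ - c) ^ 2 =
        (∫ y in K, ‖DL l w y‖ ^ 2) - 2 * c * (∫ y in K, ‖DL l w y‖) + c ^ 2 * V := by
      have e : (fun y => (‖DL l w y‖ - c) ^ 2) =
          fun y => ‖DL l w y‖ ^ 2 - 2 * c * ‖DL l w y‖ + c ^ 2 := by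
        funext y; ring
      have hA : Integrable (fun y => ‖DL l w y‖ ^ 2 - 2 * c * ‖DL l w y‖) (volume.restrict K) :=
        hsq.sub (hn1.const_mul (2 * c))
      have hB : Integrable (fun _ : Cn n => c ^ 2) (volume.restrict K) := integrableOn_const hVfin
      rw [e, integral_add hA hB,
        integral_sub hsq (hn1.const_mul _), integral_const_mul, setIntegral_const]
      simp [hV, Measure.real, mul_comm]
    rw [h2, ← hJK] at h1
    linarith
  have hJ0 : 0 ≤ J := integral_nonneg fun y => norm_nonneg _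
  have hδ : 0 ≤ δ := by
    have := hexp 0
    simpa using this
  have hJ2 : J ^ 2 ≤ (V + 1) * δ := by
    have h := hexp (J / (V + 1))
    have hVp : 0 < V + 1 := by positivity
    have h3 : 0 ≤ δ - J ^ 2 / (V + 1) := by
      have e : δ - 2 * (J / (V + 1)) * J + (J / (V + 1)) ^ 2 * V =
          δ - J ^ 2 / (V + 1) - J ^ 2 / (V + 1) ^ 2 := by
        field_simp
        ring
      rw [e] at h
      have : 0 ≤ J ^ 2 / (V + 1) ^ 2 := by positivity
      linarith
    have h4 : J ^ 2 / (V + 1) ≤ δ := by linarith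
    rw [div_le_iff₀ hVp] at h4
    linarith
  calc ‖w x‖ ^ 2 ≤ J ^ 2 := by gcongr
    _ ≤ _ := hJ2

end Pool.Agent.Helper41.HS
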